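import Pool.Agent.Run7.h823.SG.Null
import Pool.Agent.Run7.h823.WF.PN
import Pool.Agent.Run7.h823.WF.Ex

/-!
# Affine difference sets: orders in sparse families of residues

The question is whether the order `n` of an affine difference set in an abelian group is a prime power. The starting result
counts the orders. Here are statements on very sparse FINITE sets of orders which are defined modulo a large integer, such as
the first `m ^ ε` terms of a linear recurrence modulo a prime `m`. The groups need not be abelian: it suffices that the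
group has a normal Sylow 2-subgroup, as all abelian (and all nilpotent) groups have.

Let `y_i`, `i ∈ s`, be a finite family of vectors of residues modulo an integer `q` with small Fourier coefficients: for all
`h ≠ 0` modulo `q` we have `|∑ e(h·y_i / q)| ≤ δ (log q) ^ (-r) |s|`, where `r` is the number of the coordinates. We consider
the integers `n` near `ℓ(c₀ + y_i)` (least residues), for linear forms `ℓ ≠ 0` with integral coefficients and any integral
vector `c₀`.

**Theorem.** For all `r`, `B` and `ε > 0` there is `δ > 0` such that for all `q ≥ 1 / δ`, ALL such families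
and ALL `c₀` the following holds for all but `ε |s|` of the `i`, SIMULTANEOUSLY for ALL linear forms `ℓ ≠ 0` with
coefficients at most `B` in absolute value, ALL integers `n ≥ 2` with `|n - ℓ(c₀ + y_i)| ≤ B` and ALL odd `j ≤ B`: there is
no affine difference set of order `n ^ j` in a group with a normal Sylow 2-subgroup.

The family can be very sparse: examples (of vectors with `r` coordinates) are

* the values `(u_1(n), …, u_r(n))`, `n < N`, of `r` linear recurrences modulo a prime `m` with linearly independent vectors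
  of coefficients, as soon as `N ≥ m ^ ε` and the roots and their quotients have orders `≥ m ^ ε`;
* the vectors `(x_1 b_1 ^ n, …, x_r b_r ^ n)`, `n < N`, `N ≥ m ^ ε`, for fixed different integers `b_j ≥ 2` and
  all `x_j ≠ 0`, modulo all but `C X ^ ε` of the primes `m ≤ X`.

In these examples only `m ^ ε` of the `m ^ r` vectors of the box occur.

From Mathlib: `ZMod.stdAddChar`: the additive character `j ↦ exp (2 π i j / q)` of the integers modulo `q`; `ZMod.val`: the
least residue.

The proof: an affine difference set of order `n` is a relative difference set with forbidden subgroup of order `n - 1`; if an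
odd prime `q'` divides `n - 1` and a prime `r'` which is not a square modulo `q'` divides `n` to an odd power, then there is none
(theorem on relative difference sets of the starting library, `Pool.Agent.R116.AF.rds_closed`, copied in
`Pool.Agent.Run7.h823.SG.Lift`). By Dirichlet's theorem and the sieve with the moduli `q'`, `r' ^ 2`, all of them prime to a
given `M`, the vectors `c` with an order near `ℓ(c)` form a pronull set (`Pool.Agent.Run7.h823.SG.exO_null`); families with
small Fourier coefficients rarely meet pronull sets, since they are equidistributed modulo every fixed integer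
(`Pool.Agent.Run7.h823.WF.PN`); the Fourier coefficients of short recurrences are estimated by the method of Bourgain,
Glibichuk and Konyagin (`Pool.Agent.Run7.h823.BK`).
-/

set_option autoImplicit false

namespace Pool.Agent.Results.MP_4b9833_co.ResidueVectors

open Finset (range)

/-- The Fourier coefficients of the vectors of residues `y i`, `i ∈ s`, modulo `q` at the nonzero frequencies are at most
`η` times the number of the vectors: `|∑ i ∈ s, e(h·y_i / q)| ≤ η |s|` for all vectors `h ≠ 0` modulo `q`. -/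
def Flat {τ ι : Type} [Fintype ι] (q : ℕ) [NeZero q] (η : ℝ) (s : Finset τ) (y : τ → ι → ZMod q) : Prop :=
  ∀ h : ι → ZMod q, h ≠ 0 → ‖∑ i ∈ s, (ZMod.stdAddChar (∑ j, h j * y i j) : ℂ)‖ ≤ η * s.card

/-- The integral vector `c₀ + y_i`, with the least residues `0 ≤ y_i < q`. -/
def vec {τ ι : Type} {q : ℕ} (y : τ → ι → ZMod q) (c₀ : ι → ℤ) (i : τ) (j : ι) : ℤ := c₀ j + ((y i j).val : ℕ)

/-- `D` is an affine difference set of order `n` with forbidden subgroup `N` in the finite group `G`: `N` has `n - 1` elements, `D`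
has `n` elements, every element `g ∉ N` has exactly one representation `g = a * b⁻¹` with `a, b ∈ D` and no element
`g ≠ 1` of `N` has one. -/
def IsAffine {G : Type} [Group G] [Fintype G] [DecidableEq G] (N : Subgroup G) (D : Finset G) (n : ℕ) : Prop :=
  Nat.card N = n - 1 ∧ D.card = n ∧
    (∀ g : G, g ∉ N → ((D ×ˢ D).filter (fun p : G × G => p.1 * p.2⁻¹ = g)).card = 1) ∧
    (∀ g : G, g ∈ N → g ≠ 1 → ((D ×ˢ D).filter (fun p : G × G => p.1 * p.2⁻¹ = g)).card = 0)

/-- Some finite group `G` (not assumed abelian) with a normal Sylow 2-subgroup `K` (a normal subgroup of 2-power order and odd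
index) contains an affine difference set of order `n` with a normal forbidden subgroup. -/
def HasAffineDifferenceSet (n : ℕ) : Prop :=
  ∃ (G : Type) (_ : Group G) (_ : Fintype G) (_ : DecidableEq G) (N K : Subgroup G) (D : Finset G),
    N.Normal ∧ K.Normal ∧ (∃ s, Nat.card K = 2 ^ s) ∧ Odd K.index ∧ IsAffine N D n

/-- Some finite abelian group (written multiplicatively) contains an affine difference set of order `n`. -/
def HasAbelianAffineDifferenceSet (n : ℕ) : Prop :=
  ∃ (G : Type) (_ : CommGroup G) (_ : Fintype G) (_ : DecidableEq G) (N : Subgroup G) (D : Finset G), IsAffine N D n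

/-- Near the values of all small linear forms at the integral vector `c` there are no orders: for all linear forms `ℓ ≠ 0` with
coefficients `|lam_j| ≤ B`, all integers `n ≥ 2` with `|n - ℓ(c)| ≤ B` and all odd `i ≤ B` there is no affine difference set of
order `n ^ i` in an abelian group, nor in a group with a normal Sylow 2-subgroup. -/
def NoOrdersNear {r : ℕ} (B : ℕ) (c : Fin r → ℤ) : Prop :=
  ∀ lam : Fin r → ℤ, lam ≠ 0 → (∀ j, |lam j| ≤ B) → ∀ n : ℕ, 2 ≤ n → |(n : ℤ) - ∑ j, lam j * c j| ≤ B →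
    ∀ i : ℕ, i ≤ B → Odd i → ¬ HasAbelianAffineDifferenceSet (n ^ i) ∧ ¬ HasAffineDifferenceSet (n ^ i)

/-- abelian groups have a normal Sylow 2-subgroup -/
theorem of_abelian {n : ℕ} (h : HasAbelianAffineDifferenceSet n) : HasAffineDifferenceSet n := by
  obtain ⟨G, _, _, _, N, D, h⟩ := h
  have : Fact (Nat.Prime 2) := ⟨Nat.prime_two⟩
  obtain ⟨P⟩ : Nonempty (Sylow 2 G) := inferInstance
  refine ⟨G, inferInstance, inferInstance, inferInstance, N, P.1, D, inferInstance, inferInstance, IsPGroup.iff_card.1 P.2, ?_, h⟩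
  have h1 : ¬ 2 ∣ P.1.index := P.not_dvd_index
  rw [Nat.odd_iff]
  omega

theorem exO : Pool.Agent.Run7.h823.SG.ExO HasAffineDifferenceSet := by
  rintro n hn ⟨G, _, _, _, N, K, D, hN, hK, hK2, hKo, hNc, hD, h1, h0⟩ q r j a u hq hq2 hqn hr hj ha hu hnu
  exact Pool.Agent.Run7.h823.SG.rds_closed N K hK2 hKo D 1 h0 h1 hq hq2 (by rw [hNc]; exact hqn) hr hj ha hu (by rw [hD]; exact hnu)

open Pool.Agent.N24.RW (ProNull) in
open Pool.Agent.Run7.h823.SG in
theorem null (r B : ℕ) : ProNull {c : Fin r → ℤ | ¬ NoOrdersNear B c} := by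
  obtain ⟨F', hF'⟩ : ∃ F' : Set ((Fin r → ℤ) × ℤ × ℕ), F' = {a : (Fin r → ℤ) × ℤ × ℕ | (a.1 ≠ 0 ∧ ∀ j, |a.1 j| ≤ B) ∧
    a.2.1 ∈ Set.Icc (-(B : ℤ)) B ∧ a.2.2 ≤ B ∧ Odd a.2.2} := ⟨_, rfl⟩
  have hfin' : F'.Finite := by
    refine ((Pool.Agent.Run7.h823.WF.PN.finite_vec (Fin r) B).prod ((Set.finite_Icc (-(B : ℤ)) B).prod
      (Set.finite_Iic B))).subset ?_
    rw [hF']
    rintro ⟨a, b, i⟩ ⟨⟨-, h1⟩, h2, h3, -⟩
    exact ⟨h1, h2, h3⟩
  have h2 := Pool.Agent.Run7.h823.WF.PN.proNull_union hfin'
    (fun a => {c : Fin r → ℤ | ExOrder HasAffineDifferenceSet a.2.2 ((∑ j, a.1 j * c j) + a.2.1)})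
    (fun a ha => by
      rw [hF'] at ha
      exact exO_null exO a.1 ha.1.1 a.2.1 ha.2.2.2)
  refine Pool.Agent.N24.RW.Clo.mono ?_ h2
  intro c hc
  by_contra hcon
  apply hc
  intro lam hl hlB n hn2 hn i hi hio
  have hb : (n : ℤ) - ∑ j, lam j * c j ∈ Set.Icc (-(B : ℤ)) B := abs_le.1 hn
  have e : (n : ℤ) = (∑ j, lam j * c j) + ((n : ℤ) - ∑ j, lam j * c j) := by ring
  have key : ¬ HasAffineDifferenceSet (n ^ i) := by
    intro hS
    refine hcon ⟨(lam, (n : ℤ) - ∑ j, lam j * c j, i), ?_, n, e, hn2, hS⟩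
    rw [hF']
    exact ⟨⟨hl, hlB⟩, hb, hi, hio⟩
  exact ⟨fun h => key (of_abelian h), key⟩

/-- **Theorem.** (1) For all `r`, `B` and `ε > 0` there is `δ > 0` such that for all `q ≥ 1 / δ`, all families of vectors of
residues modulo `q` with Fourier coefficients at most `δ (log q) ^ (-r) |s|` at the nonzero frequencies and all integral
vectors `c₀` all but `ε |s|` of the members `c₀ + y_i` have the property `NoOrdersNear B`.

(2) Examples: short linear recurrences. (3) Examples: the first powers of fixed integers, modulo all but `C X ^ ε` of the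
primes `m ≤ X`. (The Fourier coefficients are even at most `m ^ (-β) N`.) -/
theorem result :
    (∀ (r B : ℕ) (ε : ℝ), 0 < ε → ∃ δ : ℝ, 0 < δ ∧ ∀ (q : ℕ) [NeZero q], 1 / δ ≤ q →
      ∀ (τ : Type) (s : Finset τ) (y : τ → Fin r → ZMod q), Flat q (δ / Real.log q ^ r) s y →
      ∀ c₀ : Fin r → ℤ, ({i : τ | i ∈ s ∧ ¬ NoOrdersNear B (vec y c₀ i)}.ncard : ℝ) ≤ ε * s.card) ∧
    (∀ (k : ℕ) (ε : ℝ), 0 < ε → ∃ β : ℝ, 0 < β ∧ ∃ m₀ : ℕ, ∀ (m : ℕ) [Fact m.Prime], m₀ ≤ m →
      ∀ (ι : Type) [Fintype ι] (c : ι → Fin k → ZMod m) (g : Fin k → (ZMod m)ˣ) (N : ℕ), LinearIndependent (ZMod m) c →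
      (∀ i, (m : ℝ) ^ ε ≤ orderOf (g i)) → (∀ i j, i ≠ j → (m : ℝ) ^ ε ≤ orderOf (g i / g j)) → (m : ℝ) ^ ε ≤ N →
      Flat m ((m : ℝ) ^ (-β)) (range N) (fun n j => ∑ i, c j i * (g i : ZMod m) ^ n)) ∧
    (∀ (ι : Type) [Fintype ι] (ε : ℝ), 0 < ε → ∃ β : ℝ, 0 < β ∧ ∀ b : ι → ℕ, (∀ j, 2 ≤ b j) → Function.Injective b →
      ∃ C : ℝ, ∀ X : ℕ, 1 ≤ X → ∀ Q : Finset ℕ,
      (∀ m ∈ Q, m ≤ X ∧ ∃ _ : Fact m.Prime, ¬ ∀ N : ℕ, (m : ℝ) ^ ε ≤ N → ∀ x : ι → ZMod m, (∀ j, x j ≠ 0) →
        Flat m ((m : ℝ) ^ (-β)) (range N) (fun n j => x j * (b j : ZMod m) ^ n)) →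
      (Q.card : ℝ) ≤ C * (X : ℝ) ^ ε) := by
  refine ⟨?_, fun k ε hε => Pool.Agent.Run7.h823.WF.flat_rec' k hε,
    fun ι _ ε hε => Pool.Agent.Run7.h823.WF.flat_pow' ι hε⟩
  intro r B ε hε
  obtain ⟨δ, hδ, h⟩ := Pool.Agent.Run7.h823.WF.PN.rare _ (null r B) hε
  refine ⟨δ, hδ, fun q _ hq τ s y hf c₀ => h τ q hq s y ?_ c₀⟩
  rw [Fintype.card_fin]
  exact hf

end Pool.Agent.Results.MP_4b9833_co.ResidueVectors
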